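import Pool.Agent.Helper96.CT.Stmts2

/-! # CT: the row HC -/

set_option autoImplicit false

namespace Pool.Agent.Helper14.CT

open SimpleGraph Pool.Agent.Helper96.CT

theorem st_HC : ST_HC := by
  intro V _ F H m hF hm hmV hH hMD
  classical
  by_cases hno : ∃ x ∈ H, ∃ y ∈ H, ∃ z ∈ H, x ≠ y ∧ ¬ F.Adj x y ∧ F.Adj x z ∧ F.Adj z y
  · exact Or.inl hno
  right
  obtain ⟨v, hv⟩ := hH
  obtain ⟨I, hIH, hIv, hIc⟩ := hMD v hv
  obtain ⟨J, hJI, hJc⟩ := Finset.exists_subset_card_eq hIc
  have hvJ : v ∉ J := fun h => (hIv v (hJI h)).ne rfl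
  have hKc : (insert v J).card = m - 1 := by
    rw [Finset.card_insert_of_notMem hvJ, hJc]
    omega
  refine ⟨insert v J, hKc, ?_, ?_⟩
  · intro a ha b hb hab
    rw [Finset.mem_insert] at ha hb
    rcases ha with rfl | ha
    · rcases hb with rfl | hb
      · exact absurd rfl hab
      · exact hIv b (hJI hb)
    · rcases hb with rfl | hb
      · exact (hIv a (hJI ha)).symm
      · by_contra hn
        exact hno ⟨a, hIH (hJI ha), b, hIH (hJI hb), v, hv, hab, hn,
          (hIv a (hJI ha)).symm, hIv b (hJI hb)⟩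
  · have hex : ∃ w, w ∉ insert v J := by
      by_contra hc
      push Not at hc
      have h1 : (Finset.univ : Finset V) ⊆ insert v J := fun w _ => hc w
      have h2 := Finset.card_le_card h1
      rw [hKc, Finset.card_univ] at h2
      omega
    obtain ⟨w, hw⟩ := hex
    obtain ⟨p⟩ := hF.preconnected v w
    obtain ⟨d, -, h1, h2⟩ := p.exists_boundary_dart ((insert v J : Finset V) : Set V)
      (by simp) (by simpa using hw)
    exact ⟨d.fst, by simpa using h1, d.snd, by simpa using h2, d.adj⟩

end Pool.Agent.Helper14.CT
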