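import Pool.Agent.Helper64.CT.Stmts

/-! Module HER of the CT crew (MP_866009_co): the conditions pass to induced subgraphs. -/

set_option autoImplicit false

namespace Pool.Agent.Helper64.CT

theorem her_far {V : Type} {G : SimpleGraph V} {S : Set V} {x y : S}
    (h : y ∈ Far (G.induce S) x) : y.1 ∈ Far G x.1 := by
  refine ⟨fun e => h.1 (Subtype.ext e), fun ha => h.2 ?_⟩
  simpa using ha

theorem her_comp {V : Type} {G : SimpleGraph V} {S : Set V} {x y z : S}
    (h : Comp (G.induce S) x y z) : Comp G x.1 y.1 z.1 := by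
  refine h.ind (fun z => Comp G x.1 y.1 z.1) (Comp.refl (her_far h.left)) ?_
  intro z w _ hz hw ha
  refine hz.step (her_far hw) ?_
  simpa using ha

theorem her_att {V : Type} {G : SimpleGraph V} {S : Set V} {x z n : S}
    (h : n ∈ Att (G.induce S) x z) : n.1 ∈ Att G x.1 z.1 := by
  obtain ⟨h1, u, hu, ha⟩ := h
  refine ⟨by simpa using h1, u.1, her_comp hu, by simpa using ha⟩

theorem her_mixed {V : Type} {G : SimpleGraph V} {S : Set V} {x z u : S}
    (h : Mixed (G.induce S) u (Att (G.induce S) x z)) : Mixed G u.1 (Att G x.1 z.1) := by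
  obtain ⟨⟨n, hn, ha⟩, m, hm, hb⟩ := h
  refine ⟨⟨n.1, her_att hn, by simpa using ha⟩, m.1, her_att hm, fun hc => hb ?_⟩
  simpa using hc

theorem her_conf {V : Type} {G : SimpleGraph V} {S : Set V}
    (hS : ∀ x y z : S, Comp G x.1 y.1 z.1 → Comp (G.induce S) x y z) {x y z : S}
    (h : Conf (G.induce S) x y z) : Conf G x.1 y.1 z.1 := by
  obtain ⟨h1, ⟨u, hu, hm⟩, w, hw, hm'⟩ := h
  exact ⟨fun hc => h1 (hS x y z hc), ⟨u.1, her_comp hu, her_mixed hm⟩,
    w.1, her_comp hw, her_mixed hm'⟩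

theorem st_HER : ST_HER := by
  intro V G S hS h1 h2
  refine ⟨?_, ?_⟩
  · rintro ⟨v, a, b, c, ha, hb, hc, h3, h4, h5⟩
    exact h1 ⟨v.1, a.1, b.1, c.1, by simpa using ha, by simpa using hb, by simpa using hc,
      her_comp h3, her_comp h4, her_comp h5⟩
  · intro x
    obtain ⟨side, hs1, hs2⟩ := h2 x.1
    exact ⟨fun y => side y.1, fun y z h => hs1 _ _ (her_comp h),
      fun y z h => hs2 _ _ (her_conf hS h)⟩

end Pool.Agent.Helper64.CT
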