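import Pool.Agent.Helper64.CT.Stmts

/-! Module L3A of the CT crew (MP_866009_co). -/

set_option autoImplicit false

namespace Pool.Agent.Helper64.CT

theorem l3a_far {V : Type} {G : SimpleGraph V} (h : TF G) {x a b : V} (ha : G.Adj x a)
    (hb : G.Adj x b) (hab : a ≠ b) : a ∈ Far G b :=
  ⟨hab, h b x a hb.symm ha⟩

theorem st_L3A (h1 : ST_L2) (h2 : ST_BET) : ST_L3A := by
  intro V G s hc htf hci hp hs x a b c ha hb hcx hab hac hbc h3 h4
  have hac' : a ∈ Far G c := l3a_far htf ha hcx hac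
  have hbc' : b ∈ Far G c := l3a_far htf hb hcx hbc
  have hn : ¬ Comp G c a b := fun h => h3 ((hs c).1 _ _ h)
  by_cases hA : Alpha G a c b
  · exact (h1 V G s hc htf hci hp hs a c b hac' hA).1 ⟨h4, fun h => h3 h.symm⟩
  · have h5 := h2 V G a c b hac' hbc' hn hA b (Comp.refl hbc')
    exact h4 ((hs a).1 _ _ h5).symm

end Pool.Agent.Helper64.CT
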